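import Pool.Agent.H9.CA.Tool
import Pool.Agent.H68.SF.LDX

/-!
# MP_ceca85_lc: module DO, `V_κ` for an inaccessible `κ`
-/

open Ordinal Order Set
open scoped ZFSet

namespace CAA

open SF

/-! ### choice in a model of `ZFCm` -/

section choice

variable {R : (V → Prop) → (ℕ → V) → Prop}

/-- the relation at the `ξ`-th element; `w = (ξ, x, a, F, ρ, v)` -/
def chQ (R : (V → Prop) → (ℕ → V) → Prop) (M : V → Prop) (w : ℕ → V) : Prop :=
  R M (cons (app (w 3) (w 0)) fun i => w (match i with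
    | 0 => 1
    | i + 1 => i + 5))

theorem dfb_chQ (hR : Dfb ZFm R) : Dfb ZFm (chQ R) :=
  hR.push (Tm.app (Tm.var 3) (Tm.var 0)) _

/-- the least index; `u = (ξ, x, a, F, ρ, v)` -/
def chL (R : (V → Prop) → (ℕ → V) → Prop) (M : V → Prop) (u : ℕ → V) : Prop :=
  chQ R M u ∧ ∀ η ∈ u 0, ¬ chQ R M (cons η fun i => u (i + 1))

theorem dfb_chL (hR : Dfb ZFm R) : Dfb ZFm (chL R) := by
  refine (dfb_chQ hR).and ?_
  refine (Dfb.ball (R := fun M w => ¬ chQ R M fun i => w (shr 1 i)) ktr_zfm (Tm.var 0)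
    ((dfb_chQ hR).rn _).not).congr fun M k u hu => ?_
  refine forall_congr' fun η => imp_congr_right fun _ => not_congr ?_
  rw [cons_shr_one]

/-- the chosen element; `w = (x, a, F, ρ, v)` -/
noncomputable def chG (R : (V → Prop) → (ℕ → V) → Prop) (M : V → Prop) (w : ℕ → V) : V :=
  app (w 2) (⋃₀ ((w 3).sep fun ξ => chL R M (cons ξ w)) : ZFSet)

theorem tm_chG (hR : Dfb ZFm R) : Tm ZFm (chG R) :=
  Tm.app (Tm.var 2) (Tm.sUnion (Tm.sep (dfb_chL hR) (Tm.var 3)))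

theorem zfcm_choice {M : V → Prop} (k : ZFCm M) (hR : Dfb ZFm R) {a : V} (ha : M a) {v : ℕ → V}
    (hv : In M v) (h : ∀ x ∈ a, ∃ q, M q ∧ R M (cons q (cons x v))) :
    ∃ g, M g ∧ ∀ x ∈ a, M (app g x) ∧ R M (cons (app g x) (cons x v)) := by
  have kM : ZFm M := k.toZFm
  obtain ⟨φ, hφ⟩ := id hR
  obtain ⟨b, hb, hb2⟩ := kM.coll φ v a hv ha (by
    intro x hx
    obtain ⟨q, hq, h1⟩ := h x hx
    exact ⟨q, hq, (hφ M kM _ ((hv.cons (kM.trans _ ha x hx)).cons hq)).2 h1⟩)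
  obtain ⟨ρ, F, hF, hF2, hF3⟩ := k.wo b hb
  rcases Classical.em (∃ x, x ∈ a) with ⟨x0, hx0⟩ | hne
  · obtain ⟨y0, hy0, -⟩ := hb2 x0 hx0
    obtain ⟨c0, hc0, hc1⟩ := hF3 y0 hy0
    have hρ : M ρ.toZFSet := by
      have e : dm F = ρ.toZFSet := by
        ext z
        rw [mem_dm]
        constructor
        · rintro ⟨y, hy⟩
          exact (ZFSet.pair_mem_prod.1 (hF2.1 hy)).1
        · intro hz
          obtain ⟨y, hy, -⟩ := hF2.2 z hz
          exact ⟨y, hy⟩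
      rw [← e]
      exact (Tm.dm (f := fun _ v => v 0) (Tm.var 0)).1 M kM (fun _ => F) fun _ => hF
    have hg : M (resS a fun x => chG R M (cons x (cons a (cons F (cons ρ.toZFSet v))))) :=
      (Tm.resS (f := fun _ v => v 0) (Tm.var 0) (tm_chG hR)).1 M kM
        (cons a (cons F (cons ρ.toZFSet v))) (((hv.cons hρ).cons hF).cons ha)
    refine ⟨_, hg, fun x hx => ?_⟩
    rw [app_resS hx]
    have hxM := kM.trans _ ha x hx
    have hQ : ∀ ξ : V, chQ R M (cons ξ (cons x (cons a (cons F (cons ρ.toZFSet v))))) ↔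
        R M (cons (app F ξ) (cons x v)) := by
      intro ξ
      unfold chQ
      have e : (fun i => (cons ξ (cons x (cons a (cons F (cons ρ.toZFSet v)))))
          (match i with
            | 0 => 1
            | i + 1 => i + 5)) = cons x v := by
        funext i
        cases i <;> rfl
      rw [e]
      rfl
    obtain ⟨y, hy, hy2⟩ := hb2 x hx
    have hyM := kM.trans _ hb y hy
    have hy3 : R M (cons y (cons x v)) := (hφ M kM _ ((hv.cons hxM).cons hyM)).1 hy2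
    obtain ⟨c, hc, hc2⟩ := hF3 y hy
    obtain ⟨ξ, hξ, rfl⟩ := Ordinal.mem_toZFSet_iff.1 hc
    have hξ2 : R M (cons (app F ξ.toZFSet) (cons x v)) := by
      rwa [app_eq (svl_of_isFunc hF2) hc2]
    obtain ⟨μ, ⟨hμρ, hμR⟩, hmin⟩ := WellFounded.has_min (wellFounded_lt (α := Ordinal.{0}))
      {μ : Ordinal.{0} | μ < ρ ∧ R M (cons (app F μ.toZFSet) (cons x v))} ⟨ξ, hξ, hξ2⟩
    have hS : (ρ.toZFSet.sep fun ξ => chL R M
        (cons ξ (cons x (cons a (cons F (cons ρ.toZFSet v)))))) = {μ.toZFSet} := by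
      ext z
      rw [ZFSet.mem_sep, ZFSet.mem_singleton]
      unfold chL
      rw [hQ]
      constructor
      · rintro ⟨hz, hz1, hz2⟩
        obtain ⟨ζ, hζ, rfl⟩ := Ordinal.mem_toZFSet_iff.1 hz
        rcases lt_trichotomy ζ μ with h1 | h1 | h1
        · exact absurd h1 (hmin ζ ⟨hζ, hz1⟩)
        · rw [h1]
        · exact absurd ((hQ _).2 hμR) (hz2 μ.toZFSet (Ordinal.toZFSet_mem_toZFSet_iff.2 h1))
      · rintro rfl
        refine ⟨Ordinal.toZFSet_mem_toZFSet_iff.2 hμρ, hμR, fun η hη h1 => ?_⟩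
        obtain ⟨ζ, hζ, rfl⟩ := Ordinal.mem_toZFSet_iff.1 hη
        exact hmin ζ ⟨hζ.trans hμρ, (hQ _).1 h1⟩ hζ
    have hG : chG R M (cons x (cons a (cons F (cons ρ.toZFSet v)))) = app F μ.toZFSet := by
      unfold chG
      have e : ((cons x (cons a (cons F (cons ρ.toZFSet v)))) 3) = ρ.toZFSet := rfl
      rw [e, hS, ZFSet.sUnion_singleton]
      rfl
    rw [hG]
    refine ⟨?_, hμR⟩
    exact kM.trans _ hb _ (app_mem hF2 (Ordinal.toZFSet_mem_toZFSet_iff.2 hμρ))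
  · exact ⟨∅, kM.mempty, fun x hx => absurd ⟨x, hx⟩ hne⟩

end choice

/-! ### classes covered by an ordinal below `κ` -/

/-- `S` is covered by the values of a function of `M` on an ordinal below `κ` -/
def CovK (M : V → Prop) (κ : Ordinal.{0}) (S : V → Prop) : Prop :=
  ∃ l < κ, ∃ f, M f ∧ ∀ u, M u → S u → ∃ ξ < l, app f (Ordinal.toZFSet ξ) = u

section cov

variable {M : V → Prop} {κ : Ordinal.{0}}

theorem CovK.mono {S T : V → Prop} (h : CovK M κ T) (hST : ∀ u, M u → S u → T u) :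
    CovK M κ S := by
  obtain ⟨l, hl, f, hf, h1⟩ := h
  exact ⟨l, hl, f, hf, fun u hu hs => h1 u hu (hST u hu hs)⟩

theorem in_const {x : V} (h : M x) : In M fun _ => x := fun _ => h

theorem ord_mem_of_lt (k : ZFm M) (hκ : M κ.toZFSet) {δ : Ordinal.{0}} (h : δ < κ) :
    M δ.toZFSet :=
  k.trans _ hκ _ (Ordinal.toZFSet_mem_toZFSet_iff.2 h)

theorem CovK.ord (k : ZFm M) (hκ : M κ.toZFSet) {δ : Ordinal.{0}} (h : δ < κ) :
    CovK M κ (· ∈ δ.toZFSet) := by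
  refine ⟨δ, h, resS δ.toZFSet fun x => x, ?_, ?_⟩
  · exact (Tm.resS (f := fun _ v => v 0) (g := fun _ v => v 0) (Tm.var 0) (Tm.var 0)).1 M k
      (fun _ => δ.toZFSet) fun _ => ord_mem_of_lt k hκ h
  · intro u _ hu
    obtain ⟨ξ, hξ, rfl⟩ := Ordinal.mem_toZFSet_iff.1 hu
    exact ⟨ξ, hξ, app_resS hu⟩

/-- images under definable functions -/
theorem CovK.im (k : ZFm M) (hκ : M κ.toZFSet) {S : V → Prop} (h : CovK M κ S)
    {G : (V → Prop) → (ℕ → V) → V} (hG : Tm ZFm G) {v : ℕ → V} (hv : In M v) :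
    CovK M κ fun y => ∃ u, M u ∧ S u ∧ y = G M (cons u v) := by
  obtain ⟨l, hl, f, hf, h1⟩ := h
  have h2 : Tm ZFm (fun M w => G M (cons (app (w 2) (w 0)) fun i => w (i + 3))) :=
    hG.push (Tm.app (Tm.var 2) (Tm.var 0)) fun i => i + 3
  have h3 := (Tm.resS (f := fun _ v => v 0) (Tm.var 0) h2).1 M k (cons l.toZFSet (cons f v))
    ((hv.cons hf).cons (ord_mem_of_lt k hκ hl))
  refine ⟨l, hl, _, h3, ?_⟩
  rintro y - ⟨u, hu, hS, rfl⟩
  obtain ⟨ξ, hξ, rfl⟩ := h1 u hu hS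
  exact ⟨ξ, hξ, app_resS (Ordinal.toZFSet_mem_toZFSet_iff.2 hξ)⟩

/-- subsets of a covered class -/
theorem CovK.pow (k : ZFm M) (hI : Inac M κ) {S : V → Prop} (h : CovK M κ S) :
    CovK M κ fun x => ∀ u ∈ x, S u := by
  obtain ⟨l, hl, f, hf, h1⟩ := h
  obtain ⟨τ, hτ, g, hg, h2⟩ := hI.str l hl
  have hG : Tm ZFm (fun _ w => imS (app (w 2) (w 0)) fun η => app (w 3) η) :=
    Tm.image (f := fun _ w => app (w 2) (w 0)) (g := fun _ w => app (w 4) (w 0))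
      (Tm.app (Tm.var 2) (Tm.var 0)) (Tm.app (Tm.var 4) (Tm.var 0))
  have h3 := (Tm.resS (f := fun _ v => v 0) (Tm.var 0) hG).1 M k
    (cons τ.toZFSet (cons g fun _ => f)) (((in_const hf).cons hg).cons
      (ord_mem_of_lt k hI.mem hτ))
  refine ⟨τ, hτ, _, h3, fun x hx hxS => ?_⟩
  have hlM : M l.toZFSet := ord_mem_of_lt k hI.mem hl
  have hz : M (l.toZFSet.sep fun η => app f η ∈ x) :=
    (Tm.sep (R := fun _ w => app (w 2) (w 0) ∈ w 3)
      (Dfb.mem (Tm.app (Tm.var 2) (Tm.var 0)) (Tm.var 3)) (Tm.var 0)).1 M k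
      (cons l.toZFSet (cons f fun _ => x))
      (((in_const hx).cons hf).cons hlM)
  obtain ⟨ξ, hξ, hξ2⟩ := h2 _ hz fun z hz => (ZFSet.mem_sep.1 hz).1
  refine ⟨ξ, hξ, (app_resS (Ordinal.toZFSet_mem_toZFSet_iff.2 hξ)).trans ?_⟩
  show imS (app g ξ.toZFSet) (fun η => app f η) = x
  rw [hξ2]
  ext u
  rw [mem_imS]
  constructor
  · rintro ⟨η, hη, rfl⟩
    exact (ZFSet.mem_sep.1 hη).2
  · intro hu
    obtain ⟨η, hη, hη2⟩ := h1 u (k.trans _ hx u hu) (hxS u hu)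
    exact ⟨η.toZFSet, ZFSet.mem_sep.2 ⟨Ordinal.toZFSet_mem_toZFSet_iff.2 hη, hη2 ▸ hu⟩, hη2⟩

/-- pairs of ordinals below `δ` -/
theorem CovK.prs (k : ZFm M) (hI : Inac M κ) {δ : Ordinal.{0}} (h : δ < κ) :
    CovK M κ fun q => ∃ x ∈ δ.toZFSet, ∃ y ∈ δ.toZFSet, q = ZFSet.pair x y := by
  refine (((CovK.ord k hI.mem h).pow k hI).pow k hI).mono ?_
  rintro _ - ⟨x, hx, y, hy, rfl⟩ u hu z hz
  unfold ZFSet.pair at hu
  rcases ZFSet.mem_pair.1 hu with rfl | rfl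
  · rw [ZFSet.mem_singleton.1 hz]
    exact hx
  · rcases ZFSet.mem_pair.1 hz with rfl | rfl
    · exact hx
    · exact hy

theorem inac_limit (k : ZFm M) (hI : Inac M κ) : IsSuccLimit κ := by
  refine ⟨?_, ?_⟩
  · intro h
    exact absurd (h bot_le) (not_le.2 (lt_trans omega0_pos hI.unc))
  · intro β hβ
    have h1 : β < κ := hβ.1
    have hβM : M β.toZFSet := ord_mem_of_lt k hI.mem h1
    have h2 : M (resS (1 : Ordinal.{0}).toZFSet fun _ => β.toZFSet) := by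
      have h3 : M (1 : Ordinal.{0}).toZFSet := ord_mem_of_lt k hI.mem (one_lt_omega0.trans hI.unc)
      exact (Tm.resS (f := fun _ v => v 0) (g := fun _ w => w 2) (Tm.var 0) (Tm.var 2)).1 M k
        (cons (1 : Ordinal.{0}).toZFSet fun _ => β.toZFSet) ((in_const hβM).cons h3)
    obtain ⟨γ, hγ, h3⟩ := hI.reg 1 (one_lt_omega0.trans hI.unc) _ h2
      (isFunc_resS _ _ _ fun _ _ => Ordinal.toZFSet_mem_toZFSet_iff.2 h1)
    have h4 := h3 0 zero_lt_one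
    rw [app_resS (Ordinal.toZFSet_mem_toZFSet_iff.2 zero_lt_one)] at h4
    exact hβ.2 (Ordinal.toZFSet_mem_toZFSet_iff.1 h4) hγ

/-- functions on covered sets are bounded -/
theorem CovK.bdd (k : ZFm M) (hI : Inac M κ) {x f : V} (hc : CovK M κ (· ∈ x)) (hx : M x)
    (hf : M f) (hf2 : ZFSet.IsFunc x κ.toZFSet f) :
    ∃ γ < κ, ∀ u ∈ x, app f u ∈ γ.toZFSet := by
  obtain ⟨l, hl, g, hg, h1⟩ := hc
  have hlM : M l.toZFSet := ord_mem_of_lt k hI.mem hl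
  have h0 : (∅ : V) ∈ κ.toZFSet := by
    have : (0 : Ordinal.{0}).toZFSet ∈ κ.toZFSet :=
      Ordinal.toZFSet_mem_toZFSet_iff.2 (lt_trans omega0_pos hI.unc)
    rwa [Ordinal.toZFSet_zero] at this
  have hval : ∀ z, app f z ∈ κ.toZFSet := by
    intro z
    by_cases hz : z ∈ x
    · exact app_mem hf2 hz
    · have : app f z = ∅ := by
        unfold app
        rw [ZFSet.eq_empty]
        intro y hy
        obtain ⟨w, hw, -⟩ := ZFSet.mem_sUnion.1 hy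
        exact hz (ZFSet.pair_mem_prod.1 (hf2.1 (ZFSet.mem_sep.1 hw).2)).1
      rw [this]
      exact h0
  have hM : M (resS l.toZFSet fun ξ => app f (app g ξ)) :=
    (Tm.resS (f := fun _ v => v 0) (g := fun _ w => app (w 2) (app (w 3) (w 0))) (Tm.var 0)
      (Tm.app (Tm.var 2) (Tm.app (Tm.var 3) (Tm.var 0)))).1 M k
      (cons l.toZFSet (cons f fun _ => g)) (((in_const hg).cons hf).cons hlM)
  obtain ⟨γ, hγ, h2⟩ := hI.reg l hl _ hM (isFunc_resS _ _ _ fun ξ _ => hval _)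
  refine ⟨γ, hγ, fun u hu => ?_⟩
  obtain ⟨ξ, hξ, rfl⟩ := h1 u (k.trans _ hx u hu) hu
  have h3 := h2 ξ hξ
  rwa [app_resS (Ordinal.toZFSet_mem_toZFSet_iff.2 hξ)] at h3

/-- products -/
theorem CovK.prod (k : ZFm M) (hI : Inac M κ) {δ : Ordinal.{0}} (hδ : δ < κ)
    {G : (V → Prop) → (ℕ → V) → V} (hG : Tm ZFm G) {v : ℕ → V} (hv : In M v) :
    CovK M κ fun y => ∃ x ∈ δ.toZFSet, ∃ z ∈ δ.toZFSet, y = G M (cons (ZFSet.pair x z) v) := by
  refine ((CovK.prs k hI hδ).im k hI.mem hG hv).mono ?_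
  rintro y - ⟨x, hx, z, hz, rfl⟩
  have hδM := ord_mem_of_lt k hI.mem hδ
  exact ⟨ZFSet.pair x z, k.mpair (k.trans _ hδM x hx) (k.trans _ hδM z hz), ⟨x, hx, z, hz, rfl⟩,
    rfl⟩

end cov

/-! ### the levels below `κ` -/

/-- `q = w 0` is a pair of an ordinal below `κ = w 2` and a function on it whose values are all
the sets of rank at most `β = w 1` -/
def CvR (M : V → Prop) (w : ℕ → V) : Prop :=
  fst (w 0) ∈ w 2 ∧ ∀ x, M x → (x.rank.toZFSet ⊆ w 1 → ∃ ξ ∈ fst (w 0), app (snd (w 0)) ξ = x)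

theorem dfb_CvR : Dfb ZFm CvR := by
  refine (Dfb.mem (Tm.fst (Tm.var 0)) (Tm.var 2)).and ?_
  have h1 : Dfb ZFm (fun _ w => ∃ ξ ∈ fst (w 1), app (snd (w 1)) ξ = w 0) :=
    (Dfb.bex (R := fun _ w => app (snd (w 2)) (w 0) = w 1) ktr_zfm (Tm.fst (Tm.var 1))
      (Dfb.eq (Tm.app (Tm.snd (Tm.var 2)) (Tm.var 0)) (Tm.var 1))).congr fun M k v hv => Iff.rfl
  have h2 : Dfb ZFm (fun _ w => (w 0).rank.toZFSet ⊆ w 2) := Dfb.subset pf_RKT (Tm.var 2)
  exact ((h2.imp h1).all).congr fun M k v hv => Iff.rfl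

theorem covK_rank {M : V → Prop} {κ : Ordinal.{0}} (k : ZFCm M) (hI : Inac M κ)
    (α : Ordinal.{0}) : α < κ → CovK M κ fun x => x.rank < α := by
  have kM : ZFm M := k.toZFm
  have hlim := inac_limit kM hI
  induction α using WellFoundedLT.induction with
  | _ α ih =>
    intro hα
    have hαM : M α.toZFSet := ord_mem_of_lt kM hI.mem hα
    -- the subsets of the levels are covered
    have h1 : ∀ β ∈ α.toZFSet, ∃ q, M q ∧ CvR M (cons q (cons β fun _ => κ.toZFSet)) := by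
      intro b hb
      obtain ⟨β, hβ, rfl⟩ := Ordinal.mem_toZFSet_iff.1 hb
      obtain ⟨l, hl, f, hf, h2⟩ := (ih β hβ (hβ.trans hα)).pow kM hI
      refine ⟨ZFSet.pair l.toZFSet f, kM.mpair (ord_mem_of_lt kM hI.mem hl) hf, ?_, ?_⟩
      · show fst (ZFSet.pair l.toZFSet f) ∈ κ.toZFSet
        rw [fst_pair]
        exact Ordinal.toZFSet_mem_toZFSet_iff.2 hl
      · intro x hx hxβ
        have hxβ' : x.rank ≤ β := by
          by_contra hcon
          rw [not_le] at hcon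
          have h3 : β.toZFSet ∈ β.toZFSet := hxβ (Ordinal.toZFSet_mem_toZFSet_iff.2 hcon)
          exact absurd (Ordinal.toZFSet_mem_toZFSet_iff.1 h3) (lt_irrefl _)
        obtain ⟨ξ, hξ, h4⟩ := h2 x hx fun u hu => (ZFSet.rank_lt_of_mem hu).trans_le hxβ'
        refine ⟨ξ.toZFSet, ?_, ?_⟩
        · show ξ.toZFSet ∈ fst (ZFSet.pair l.toZFSet f)
          rw [fst_pair]
          exact Ordinal.toZFSet_mem_toZFSet_iff.2 hξ
        · show app (snd (ZFSet.pair l.toZFSet f)) ξ.toZFSet = x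
          rw [snd_pair]
          exact h4
    obtain ⟨g, hg, hg2⟩ := zfcm_choice k dfb_CvR hαM (in_const hI.mem) h1
    -- the lengths are bounded
    have h3 : M (resS α.toZFSet fun β => fst (app g β)) :=
      (Tm.resS (f := fun _ v => v 0) (g := fun _ w => fst (app (w 2) (w 0))) (Tm.var 0)
        (Tm.fst (Tm.app (Tm.var 2) (Tm.var 0)))).1 M kM (cons α.toZFSet fun _ => g)
        ((in_const hg).cons hαM)
    obtain ⟨γ, hγ, h4⟩ := hI.reg α hα _ h3 (isFunc_resS _ _ _ fun β hβ => (hg2 β hβ).2.1)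
    have h5 := CovK.prod kM hI (max_lt hα hγ)
      (G := fun _ w => app (snd (app (w 1) (fst (w 0)))) (snd (w 0)))
      (Tm.app (Tm.snd (Tm.app (Tm.var 1) (Tm.fst (Tm.var 0)))) (Tm.snd (Tm.var 0)))
      (in_const hg)
    refine h5.mono fun x hx hxα => ?_
    have hb : x.rank.toZFSet ∈ α.toZFSet := Ordinal.toZFSet_mem_toZFSet_iff.2 hxα
    obtain ⟨-, h6⟩ := (hg2 _ hb).2
    obtain ⟨ξ, hξ, h7⟩ := h6 x hx fun _ h => h
    have h8 := h4 x.rank hxα
    rw [app_resS hb] at h8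
    have h9 : ξ ∈ γ.toZFSet := by
      obtain ⟨ζ, hζ, h10⟩ := Ordinal.mem_toZFSet_iff.1 h8
      have h11 : ξ ∈ fst (app g x.rank.toZFSet) := hξ
      rw [← h10] at h11
      obtain ⟨ζ', hζ', rfl⟩ := Ordinal.mem_toZFSet_iff.1 h11
      exact Ordinal.toZFSet_mem_toZFSet_iff.2 (hζ'.trans hζ)
    have hsub1 : α.toZFSet ⊆ (max α γ).toZFSet := by
      intro z hz
      obtain ⟨ζ, hζ, rfl⟩ := Ordinal.mem_toZFSet_iff.1 hz
      exact Ordinal.toZFSet_mem_toZFSet_iff.2 (hζ.trans_le (le_max_left _ _))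
    have hsub2 : γ.toZFSet ⊆ (max α γ).toZFSet := by
      intro z hz
      obtain ⟨ζ, hζ, rfl⟩ := Ordinal.mem_toZFSet_iff.1 hz
      exact Ordinal.toZFSet_mem_toZFSet_iff.2 (hζ.trans_le (le_max_right _ _))
    refine ⟨x.rank.toZFSet, hsub1 hb, ξ, hsub2 h9, ?_⟩
    show x = app (snd (app g (fst (ZFSet.pair x.rank.toZFSet ξ)))) (snd (ZFSet.pair _ ξ))
    rw [fst_pair, snd_pair]
    exact h7.symm

theorem rank_pair_lt {x y : V} {δ : Ordinal.{0}} (hx : x.rank < δ) (hy : y.rank < δ) :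
    (ZFSet.pair x y).rank < succ (succ δ) := by
  have h1 : succ x.rank ≤ δ := succ_le_of_lt hx
  have h2 : succ y.rank ≤ δ := succ_le_of_lt hy
  unfold ZFSet.pair
  rw [ZFSet.rank_pair, ZFSet.rank_singleton, ZFSet.rank_pair, lt_succ_iff, max_le_iff]
  exact ⟨succ_le_succ h1, succ_le_succ (max_le h1 h2)⟩

theorem pf_DO : T_DO := by
  intro M κ k hI
  have kM : ZFm M := k.toZFm
  have hlim := inac_limit kM hI
  -- the set `N`
  have hlev : ∀ a ∈ κ.toZFSet, ∃ y, M y ∧ ∀ x, M x → (x.rank.toZFSet ∈ a → x ∈ y) := by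
    intro a ha
    obtain ⟨α, hα, rfl⟩ := Ordinal.mem_toZFSet_iff.1 ha
    obtain ⟨l, hl, f, hf, h1⟩ := covK_rank k hI α hα
    refine ⟨imS l.toZFSet fun ξ => app f ξ, ?_, ?_⟩
    · exact (Tm.image (f := fun _ v => v 0) (g := fun _ w => app (w 2) (w 0)) (Tm.var 0)
        (Tm.app (Tm.var 2) (Tm.var 0))).1 M kM (cons l.toZFSet fun _ => f)
        ((in_const hf).cons (ord_mem_of_lt kM hI.mem hl))
    · intro x hx hxα
      obtain ⟨ξ, hξ, h2⟩ := h1 x hx (Ordinal.toZFSet_mem_toZFSet_iff.1 hxα)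
      exact mem_imS.2 ⟨ξ.toZFSet, Ordinal.toZFSet_mem_toZFSet_iff.2 hξ, h2⟩
  obtain ⟨φ, hφ⟩ : Dfb ZFm (fun M w => ∀ x, M x → (x.rank.toZFSet ∈ w 1 → x ∈ w 0)) := by
    have h1 : Dfb ZFm (fun _ w => (w 0).rank.toZFSet ∈ w 2) := Dfb.mem pf_RKT (Tm.var 2)
    exact ((h1.imp (Dfb.mem (Tm.var 0) (Tm.var 1))).all).congr fun M k v hv => Iff.rfl
  obtain ⟨b, hb, hb2⟩ := kM.coll φ (fun _ => κ.toZFSet) κ.toZFSet (in_const hI.mem) hI.mem (by
    intro a ha
    obtain ⟨y, hy, h1⟩ := hlev a ha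
    exact ⟨y, hy, (hφ M kM _ (((in_const hI.mem).cons (kM.trans _ hI.mem a ha)).cons hy)).2 h1⟩)
  have hNM : M ((⋃₀ b : ZFSet).sep fun x => x.rank.toZFSet ∈ κ.toZFSet) :=
    (Tm.sep (R := fun _ w => (w 0).rank.toZFSet ∈ w 1) (f := fun _ v => (⋃₀ (v 1) : ZFSet))
      (Dfb.mem pf_RKT (Tm.var 1)) (Tm.sUnion (Tm.var 1))).1 M kM
      (cons κ.toZFSet fun _ => b) ((in_const hb).cons hI.mem)
  have hV : IsVk M κ ((⋃₀ b : ZFSet).sep fun x => x.rank.toZFSet ∈ κ.toZFSet) := by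
    intro x
    rw [ZFSet.mem_sep, Ordinal.toZFSet_mem_toZFSet_iff]
    constructor
    · rintro ⟨hx, hx2⟩
      exact ⟨kM.trans _ (kM.union _ hb) x hx, hx2⟩
    · rintro ⟨hx, hx2⟩
      refine ⟨?_, hx2⟩
      have h1 : (succ x.rank).toZFSet ∈ κ.toZFSet :=
        Ordinal.toZFSet_mem_toZFSet_iff.2 (hlim.succ_lt hx2)
      obtain ⟨y, hy, hy2⟩ := hb2 _ h1
      have h2 := (hφ M kM _ (((in_const hI.mem).cons (kM.trans _ hI.mem _ h1)).cons
        (kM.trans _ hb y hy))).1 hy2 x hx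
        (Ordinal.toZFSet_mem_toZFSet_iff.2 (lt_succ _))
      exact ZFSet.mem_sUnion.2 ⟨y, hy, h2⟩
  generalize ((⋃₀ b : ZFSet).sep fun x => x.rank.toZFSet ∈ κ.toZFSet) = N at hNM hV
  have htr : N.IsTransitive := by
    intro x hx y hy
    obtain ⟨h1, h2⟩ := (hV x).1 hx
    exact (hV y).2 ⟨kM.trans _ h1 y hy, (ZFSet.rank_lt_of_mem hy).trans h2⟩
  have hpr : ∀ x ∈ N, ∀ y ∈ N, ZFSet.pair x y ∈ N := by
    intro x hx y hy
    obtain ⟨h1, h2⟩ := (hV x).1 hx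
    obtain ⟨h3, h4⟩ := (hV y).1 hy
    refine (hV _).2 ⟨kM.mpair h1 h3, ?_⟩
    have h5 : max (succ x.rank) (succ y.rank) < κ := max_lt (hlim.succ_lt h2) (hlim.succ_lt h4)
    exact (rank_pair_lt ((lt_succ _).trans_le (le_max_left _ _))
      ((lt_succ _).trans_le (le_max_right _ _))).trans (hlim.succ_lt (hlim.succ_lt h5))
  have hGd : Gd N := by
    refine ⟨htr, (hV _).2 ⟨kM.inf, ?_⟩, hpr⟩
    rw [Ordinal.rank_toZFSet]
    exact hI.unc
  have hcov : ∀ x ∈ N, CovK M κ (· ∈ x) := by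
    intro x hx
    obtain ⟨h1, h2⟩ := (hV x).1 hx
    exact (covK_rank k hI x.rank h2).mono fun u _ hu => ZFSet.rank_lt_of_mem hu
  have hbd : ∀ x ∈ N, ∀ f, M f → ZFSet.IsFunc x κ.toZFSet f →
      ∃ γ < κ, ∀ u ∈ x, app f u ∈ γ.toZFSet := fun x hx f hf hf2 =>
    (hcov x hx).bdd kM hI ((hV x).1 hx).1 hf hf2
  have hrel : ∀ f, M f → ∀ δ < κ, (∀ q ∈ f, ∃ a b : V, a.rank < δ ∧ b.rank < δ ∧
      q = ZFSet.pair a b) → f ∈ N := by
    intro f hf δ hδ h
    refine (hV f).2 ⟨hf, ?_⟩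
    refine lt_of_le_of_lt (ZFSet.rank_le_iff.2 fun q hq => ?_) (hlim.succ_lt (hlim.succ_lt hδ))
    obtain ⟨a, b, ha, hb, rfl⟩ := h q hq
    exact rank_pair_lt ha hb
  have hfun : ∀ x ∈ N, ∀ f, M f → ZFSet.IsFunc x N f → f ∈ N := by
    intro x hx f hf hf2
    have h1 : M (resS x fun u => (app f u).rank.toZFSet) :=
      (Tm.resS (f := fun _ v => v 0) (g := fun _ w => (app (w 2) (w 0)).rank.toZFSet) (Tm.var 0)
        (Tm.at1 (F := fun _ y => y.rank.toZFSet) pf_RKT (Tm.app (Tm.var 2) (Tm.var 0)))).1 M kM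
        (cons x fun _ => f) ((in_const hf).cons ((hV x).1 hx).1)
    obtain ⟨γ, hγ, h2⟩ := hbd x hx _ h1 (isFunc_resS _ _ _ fun u hu =>
      Ordinal.toZFSet_mem_toZFSet_iff.2 ((hV _).1 (app_mem hf2 hu)).2)
    refine hrel f hf (max γ x.rank) (max_lt hγ ((hV x).1 hx).2) fun q hq => ?_
    obtain ⟨a, ha, b, hb, rfl⟩ := ZFSet.mem_prod.1 (hf2.1 hq)
    have h3 := h2 a ha
    rw [app_resS ha, Ordinal.toZFSet_mem_toZFSet_iff, app_eq (svl_of_isFunc hf2) hq] at h3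
    exact ⟨a, b, (ZFSet.rank_lt_of_mem ha).trans_le (le_max_right _ _),
      h3.trans_le (le_max_left _ _), rfl⟩
  refine ⟨N, hNM, hV, hGd, hlim, ?_, ?_, hfun, hbd, ?_⟩
  · intro x hx
    rcases Classical.em (∃ u, u ∈ x) with ⟨u0, hu0⟩ | hne
    · right
      obtain ⟨hxM, hxκ⟩ := (hV x).1 hx
      obtain ⟨l, hl, f, hf, h1⟩ := hcov x hx
      have hlM := ord_mem_of_lt kM hI.mem hl
      have hu0M := kM.trans _ hxM u0 hu0
      -- the function on `l`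
      have hg1 : M (resS (l.toZFSet.sep fun ξ => app f ξ ∈ x) fun ξ => app f ξ) :=
        (Tm.resS (f := fun _ w => (w 0).sep fun ξ => app (w 1) ξ ∈ w 2)
          (g := fun _ w => app (w 2) (w 0))
          (Tm.sep (R := fun _ w => app (w 2) (w 0) ∈ w 3)
            (Dfb.mem (Tm.app (Tm.var 2) (Tm.var 0)) (Tm.var 3)) (Tm.var 0))
          (Tm.app (Tm.var 2) (Tm.var 0))).1 M kM (cons l.toZFSet (cons f fun _ => x))
          (((in_const hxM).cons hf).cons hlM)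
      have hg2 : M (resS (l.toZFSet.sep fun ξ => ¬ app f ξ ∈ x) fun _ => u0) :=
        (Tm.resS (f := fun _ w => (w 0).sep fun ξ => ¬ app (w 1) ξ ∈ w 2)
          (g := fun _ w => w 4)
          (Tm.sep (R := fun _ w => ¬ app (w 2) (w 0) ∈ w 3)
            (Dfb.mem (Tm.app (Tm.var 2) (Tm.var 0)) (Tm.var 3)).not (Tm.var 0))
          (Tm.var 4)).1 M kM (cons l.toZFSet (cons f (cons x fun _ => u0)))
          ((((in_const hu0M).cons hxM).cons hf).cons hlM)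
      have hgM : M (resS (l.toZFSet.sep fun ξ => app f ξ ∈ x) (fun ξ => app f ξ) ∪
          resS (l.toZFSet.sep fun ξ => ¬ app f ξ ∈ x) fun _ => u0) :=
        (Tm.union (Tm.var 0) (Tm.var 1)).1 M kM (cons _ fun _ => _) ((in_const hg2).cons hg1)
      have hmem : ∀ a c : V, ZFSet.pair a c ∈ (resS (l.toZFSet.sep fun ξ => app f ξ ∈ x)
          (fun ξ => app f ξ) ∪ resS (l.toZFSet.sep fun ξ => ¬ app f ξ ∈ x) fun _ => u0) ↔
          a ∈ l.toZFSet ∧ ((app f a ∈ x ∧ c = app f a) ∨ (app f a ∉ x ∧ c = u0)) := by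
        intro a c
        rw [ZFSet.mem_union, pair_mem_resS, pair_mem_resS, ZFSet.mem_sep, ZFSet.mem_sep]
        tauto
      have hmem2 : ∀ q ∈ (resS (l.toZFSet.sep fun ξ => app f ξ ∈ x)
          (fun ξ => app f ξ) ∪ resS (l.toZFSet.sep fun ξ => ¬ app f ξ ∈ x) fun _ => u0),
          ∃ a ∈ l.toZFSet, ∃ c ∈ x, q = ZFSet.pair a c := by
        intro q hq
        rcases ZFSet.mem_union.1 hq with hq | hq
        · obtain ⟨a, ha, rfl⟩ := mem_resS.1 hq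
          exact ⟨a, (ZFSet.mem_sep.1 ha).1, _, (ZFSet.mem_sep.1 ha).2, rfl⟩
        · obtain ⟨a, ha, rfl⟩ := mem_resS.1 hq
          exact ⟨a, (ZFSet.mem_sep.1 ha).1, _, hu0, rfl⟩
      generalize (resS (l.toZFSet.sep fun ξ => app f ξ ∈ x) (fun ξ => app f ξ) ∪
          resS (l.toZFSet.sep fun ξ => ¬ app f ξ ∈ x) fun _ => u0) = g at hgM hmem hmem2
      refine ⟨l, hl, g, ?_, ⟨?_, ?_⟩, ?_⟩
      · refine hrel g hgM (max l x.rank) (max_lt hl hxκ) fun q hq => ?_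
        obtain ⟨a, ha, c, hc, rfl⟩ := hmem2 q hq
        refine ⟨a, c, ?_, (ZFSet.rank_lt_of_mem hc).trans_le (le_max_right _ _), rfl⟩
        obtain ⟨ξ, hξ, rfl⟩ := Ordinal.mem_toZFSet_iff.1 ha
        rw [Ordinal.rank_toZFSet]
        exact hξ.trans_le (le_max_left _ _)
      · intro q hq
        obtain ⟨a, ha, c, hc, rfl⟩ := hmem2 q hq
        exact ZFSet.pair_mem_prod.2 ⟨ha, hc⟩
      · intro a ha
        by_cases h2 : app f a ∈ x
        · refine ⟨app f a, (hmem _ _).2 ⟨ha, Or.inl ⟨h2, rfl⟩⟩, fun c hc => ?_⟩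
          rcases ((hmem _ _).1 hc).2 with h3 | h3
          · exact h3.2
          · exact absurd h2 h3.1
        · refine ⟨u0, (hmem _ _).2 ⟨ha, Or.inr ⟨h2, rfl⟩⟩, fun c hc => ?_⟩
          rcases ((hmem _ _).1 hc).2 with h3 | h3
          · exact absurd h3.1 h2
          · exact h3.2
      · intro c hc
        obtain ⟨ξ, hξ, h2⟩ := h1 c (kM.trans _ hxM c hc) hc
        refine ⟨ξ.toZFSet, Ordinal.toZFSet_mem_toZFSet_iff.2 hξ, (hmem _ _).2
          ⟨Ordinal.toZFSet_mem_toZFSet_iff.2 hξ, Or.inl ⟨h2 ▸ hc, h2.symm⟩⟩⟩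
    · left
      rw [ZFSet.eq_empty]
      exact fun u hu => hne ⟨u, hu⟩
  · intro y hy x hx hxy
    exact (hV x).2 ⟨hx, (ZFSet.rank_mono hxy).trans_lt ((hV y).1 hy).2⟩
  · intro x hxM
    constructor
    · intro hx
      refine ⟨fun u hu => htr x hx hu, x, hx, Or.inr ⟨resS x fun u => u, ?_, ?_, ?_⟩⟩
      · exact (Tm.resS (f := fun _ v => v 0) (g := fun _ v => v 0) (Tm.var 0) (Tm.var 0)).1 M kM
          (fun _ => x) fun _ => hxM
      · exact isFunc_resS _ _ _ fun u hu => hu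
      · intro u hu
        exact ⟨u, hu, pair_mem_resS.2 ⟨hu, rfl⟩⟩
    · rintro ⟨hxN, C, hC, rfl | ⟨f, hf, hf2, hf3⟩⟩
      · refine (hV _).2 ⟨kM.mempty, ?_⟩
        rw [ZFSet.rank_empty]
        exact lt_trans omega0_pos hI.unc
      · have h1 : f ∈ N := by
          refine hfun C hC f hf ⟨fun q hq => ?_, hf2.2⟩
          obtain ⟨a, ha, b, hb, rfl⟩ := ZFSet.mem_prod.1 (hf2.1 hq)
          exact ZFSet.pair_mem_prod.2 ⟨ha, hxN hb⟩
        refine (hV x).2 ⟨hxM, lt_of_le_of_lt (ZFSet.rank_le_iff.2 fun u hu => ?_) ((hV f).1 h1).2⟩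
        obtain ⟨a, -, ha⟩ := hf3 u hu
        have h2 : u ∈ ({a, u} : V) := ZFSet.mem_pair.2 (Or.inr rfl)
        have h3 : ({a, u} : V) ∈ ZFSet.pair a u := by
          unfold ZFSet.pair
          exact ZFSet.mem_pair.2 (Or.inr rfl)
        exact (ZFSet.rank_lt_of_mem h2).trans ((ZFSet.rank_lt_of_mem h3).trans
          (ZFSet.rank_lt_of_mem ha))

end CAA
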