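import Pool.Agent.H9.CA.Tool
import Pool.Agent.H68.SF.LAll

/-!
# MP_ceca85_lc: module DN, bounded subsets of `L_κ`
-/

open Ordinal Order Set
open scoped ZFSet

namespace CAA

open SF

theorem dn_sm_mem {M : V → Prop} (k : ZFm M) {C X : V} (h : Sm M C X) : M X := by
  rcases h with rfl | ⟨f, hf, h1, h2⟩
  · exact k.mempty
  · have e : rg f = X := by
      ext y
      rw [mem_rg]
      constructor
      · rintro ⟨x, hx⟩
        exact (ZFSet.pair_mem_prod.1 (h1.1 hx)).2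
      · intro hy
        obtain ⟨a, -, ha⟩ := h2 y hy
        exact ⟨a, ha⟩
    rw [← e]
    exact (Tm.rg (f := fun _ v => v 0) (Tm.var 0)).1 M k (fun _ => f) (fun _ => hf)

theorem dn_empty_tr : (∅ : V).IsTransitive := fun y hy => absurd hy (ZFSet.notMem_empty y)

theorem dn_pair {γ : Ordinal.{0}} (hγ : IsSuccLimit γ) {x y : V} (hx : x ∈ LA ∅ γ)
    (hy : y ∈ LA ∅ γ) : ZFSet.pair x y ∈ LA ∅ γ := by
  obtain ⟨a, ha, hxa⟩ := (mem_Lh_limit hγ).1 hx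
  obtain ⟨b, hb, hyb⟩ := (mem_Lh_limit hγ).1 hy
  have hm : max a b < γ := max_lt ha hb
  have hx' := Lh_mono (le_max_left a b) hxa
  have hy' := Lh_mono (le_max_right a b) hyb
  have h1 := pair_mem_Lh (A := ∅) dn_empty_tr (lt_succ (max a b)) hx' hx'
  have h2 := pair_mem_Lh (A := ∅) dn_empty_tr (lt_succ (max a b)) hx' hy'
  rw [ZFSet.pair_eq_singleton] at h1
  have h3 := pair_mem_Lh (A := ∅) dn_empty_tr (lt_succ (succ (max a b))) h1 h2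
  exact Lh_mono (hγ.succ_lt (hγ.succ_lt hm)).le h3

theorem pf_DN (hDC : T_DC) (hDF : T_DF) (hDJ : T_DJ) (hDK : T_DK) (hDL : T_DL) : T_DN := by
  intro κ θ hM hωκ hκθ hZ hreg hκ y hy x hx hxy
  have kM : ZFm (· ∈ LA ∅ θ) := hM.toZFm
  obtain ⟨hlimκ, hordκ⟩ := SF.H68.aLHE ∅ ∅ κ dn_empty_tr hκ hκ.mempty hκ.mempty
  obtain ⟨hlimθ, hordθ⟩ := SF.H68.aLHE ∅ ∅ θ dn_empty_tr kM kM.mempty kM.mempty
  obtain ⟨β, hβ, hyβ⟩ := (mem_Lh_limit hlimκ).1 hy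
  have hδ : max β ω < κ := max_lt hβ hωκ
  have hγκ : max β ω + ω < κ := by
    have h1 := SF.H68.aLAR.1.1 (· ∈ LA ∅ κ) hκ (cons (max β ω).toZFSet fun _ => om) (by
      intro i
      cases i with
      | zero => exact (hordκ _).2 hδ
      | succ i => exact (hordκ _).2 hωκ)
    simp only [cons_zero, cons_succ, Ordinal.rank_toZFSet] at h1
    exact (hordκ _).1 h1
  have hγlim : IsSuccLimit (max β ω + ω) := Ordinal.isSuccLimit_add _ isSuccLimit_omega0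
  set γ : Ordinal.{0} := max β ω + ω with hγ
  have hωγ : ω < γ := lt_of_le_of_lt (le_max_right β ω) (by
    rw [hγ]
    exact lt_add_of_pos_right _ omega0_pos)
  have hβγ : β < γ := lt_of_le_of_lt (le_max_left β ω) (by
    rw [hγ]
    exact lt_add_of_pos_right _ omega0_pos)
  have hC : Gd (LA ∅ γ) := ⟨Lh_isTransitive dn_empty_tr γ, ord_mem_Lh dn_empty_tr hωγ,
    fun x hx y hy => dn_pair hγlim hx hy⟩
  have hCκ : LA ∅ γ ∈ LA ∅ κ := Lh_mem hγκ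
  have hγθ : γ < θ := hγκ.trans hκθ
  have hMC : LA ∅ γ ∈ LA ∅ θ := Lh_mem hγθ
  have hyC : y ⊆ LA ∅ γ := fun z hz =>
    Lh_mono hβγ.le (Lh_isTransitive dn_empty_tr β y hyβ hz)
  have hxC : x ⊆ LA ∅ γ := fun z hz => hyC (hxy hz)
  obtain ⟨ξ, hξ, hxξ⟩ := (mem_Lh_limit hlimθ).1 hx
  obtain ⟨ρ, hρ, hρθ, hρZ⟩ := hZ (max ξ κ) (max_lt hξ hκθ)
  have hξρ : ξ < ρ := lt_of_le_of_lt (le_max_left ξ κ) hρ
  have hκρ : κ < ρ := lt_of_le_of_lt (le_max_right ξ κ) hρ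
  have hxρ : x ∈ LA ∅ ρ := Lh_mono hξρ.le hxξ
  have hCρ : LA ∅ γ ⊆ LA ∅ ρ := Lh_mono (hγκ.trans hκρ).le
  have hMR : LA ∅ ρ ∈ LA ∅ θ := Lh_mem hρθ
  obtain ⟨f1, f2, f3, f4, f5, f6, f7, f8, f9, f10⟩ := hDF _ kM (LA ∅ γ) hMC hC
  have h0C : (∅ : V) ∈ LA ∅ γ := by
    have h1 := ord_mem_Lh (A := ∅) dn_empty_tr (lt_trans omega0_pos hωγ)
    rwa [Ordinal.toZFSet_zero] at h1
  -- the singleton
  have hsx : Sm (· ∈ LA ∅ θ) (LA ∅ γ) {x} := by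
    have h1 : Sm (· ∈ LA ∅ θ) (LA ∅ γ) {∅} := by
      refine f2 {∅} ?_ ?_
      · have := kM.pair ∅ ∅ kM.mempty kM.mempty
        rwa [ZFSet.pair_eq_singleton] at this
      · intro z hz
        rw [ZFSet.mem_singleton.1 hz]
        exact h0C
    have h2 : ({ZFSet.pair ∅ x} : V) ∈ LA ∅ θ := by
      have h3 := kM.mpair kM.mempty hx
      have := kM.pair _ _ h3 h3
      rwa [ZFSet.pair_eq_singleton] at this
    have h3 := f7 {∅} {ZFSet.pair ∅ x} h1 h2 (by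
      intro a b c hb hc
      rw [ZFSet.mem_singleton] at hb hc
      rw [(ZFSet.pair_inj.1 hb).2, (ZFSet.pair_inj.1 hc).2]) (by
      ext z
      rw [mem_dm, ZFSet.mem_singleton]
      constructor
      · rintro ⟨w, hw⟩
        exact (ZFSet.pair_inj.1 (ZFSet.mem_singleton.1 hw)).1
      · rintro rfl
        exact ⟨x, ZFSet.mem_singleton.2 rfl⟩)
    have e : rg ({ZFSet.pair ∅ x} : V) = {x} := by
      ext z
      rw [mem_rg, ZFSet.mem_singleton]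
      constructor
      · rintro ⟨w, hw⟩
        exact (ZFSet.pair_inj.1 (ZFSet.mem_singleton.1 hw)).2
      · rintro rfl
        exact ⟨∅, ZFSet.mem_singleton.2 rfl⟩
    rwa [e] at h3
  have hSY : Sm (· ∈ LA ∅ θ) (LA ∅ γ) (LA ∅ γ ∪ {x}) :=
    f5 _ _ (f2 _ hMC fun _ h => h) hsx
  have hMY : (LA ∅ γ ∪ {x} : V) ∈ LA ∅ θ := dn_sm_mem kM hSY
  have hYR : LA ∅ γ ∪ {x} ⊆ LA ∅ ρ := by
    intro z hz
    rcases ZFSet.mem_union.1 hz with hz | hz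
    · exact hCρ hz
    · rw [ZFSet.mem_singleton.1 hz]
      exact hxρ
  obtain ⟨hEl, hXne, hYX, -⟩ := hDC (LA ∅ ρ) ∅ ρ hρZ hρZ.mempty rfl _ hYR (Or.inl rfl)
  have hSX := f8 _ _ hMR hMY hSY
  set X : V := Dcl (LA ∅ ρ) (LA ∅ γ ∪ {x}) with hX
  have hMX : X ∈ LA ∅ θ := dn_sm_mem kM hSX
  have hCX : LA ∅ γ ⊆ X := fun z hz => hYX (ZFSet.mem_union.2 (Or.inl hz))
  have hxX : x ∈ X := hYX (ZFSet.mem_union.2 (Or.inr (ZFSet.mem_singleton.2 rfl)))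
  obtain ⟨f, hf, hN'tr, hf2, hf3, hf4, hf5⟩ := hDK (LA ∅ ρ) X (Lh_isTransitive dn_empty_tr ρ)
    ⟨x, hxρ⟩ hEl
  have hfix := hf5 (LA ∅ γ) hC.tr hCX
  have h0N : (∅ : V) ∈ imS X fun x => clp X x :=
    mem_imS.2 ⟨∅, hCX h0C, (hfix ∅ h0C).1⟩
  obtain ⟨τ', hN', hZ', hord'⟩ := hDL _ (LA ∅ ρ) f ∅ ρ hf hN'tr ⟨∅, h0N⟩ hρZ h0N
    (by rw [(hfix ∅ h0C).2])
  have hclx : clp X x = x := by
    ext z
    rw [hDJ.1]
    constructor
    · rintro ⟨w, hw, -, rfl⟩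
      rw [(hfix w (hxC hw)).1]
      exact hw
    · intro hz
      exact ⟨z, hz, hCX (hxC hz), ((hfix z (hxC hz)).1).symm⟩
  have hxN : x ∈ imS X fun x => clp X x := mem_imS.2 ⟨x, hxX, hclx⟩
  have hτκ : τ' < κ := by
    by_contra hcon
    rw [not_lt] at hcon
    have hres : resS X (fun x => clp X x) ∈ LA ∅ θ := by
      have h1 : Tm ZFm (fun _ v => resS (v 0) fun x => clp (v 0) x) :=
        Tm.resS (f := fun _ v => v 0) (g := fun _ v => clp (v 1) (v 0)) (Tm.var 0)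
          (hDJ.2.rn fun i => if i = 0 then 1 else 0)
      exact h1.1 _ kM (fun _ => X) (fun _ => hMX)
    have h2 := f7 X _ hSX hres (svl_resS X _) (dm_resS X _)
    have e : rg (resS X fun x => clp X x) = imS X fun x => clp X x := by
      ext z
      rw [mem_rg, mem_imS]
      constructor
      · rintro ⟨w, hw⟩
        obtain ⟨h3, h4⟩ := pair_mem_resS.1 hw
        exact ⟨w, h3, h4.symm⟩
      · rintro ⟨w, h3, h4⟩
        exact ⟨w, pair_mem_resS.2 ⟨h3, h4.symm⟩⟩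
    rw [e] at h2
    have hκN : κ.toZFSet ⊆ imS X fun x => clp X x := by
      intro z hz
      obtain ⟨α, hα, rfl⟩ := Ordinal.mem_toZFSet_iff.1 hz
      exact (hord' α).2 (hα.trans_le hcon)
    rcases f3 _ _ ((hordθ κ).2 hκθ) h2 hκN with h5 | ⟨g, hg, hg1, hg2⟩
    · have h6 : (ω : Ordinal.{0}).toZFSet ∈ κ.toZFSet := Ordinal.toZFSet_mem_toZFSet_iff.2 hωκ
      rw [h5] at h6
      exact ZFSet.notMem_empty _ h6
    · obtain ⟨γ', hγ', hb⟩ := hreg (LA ∅ γ) hCκ g hg hg1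
      obtain ⟨a, ha, hab⟩ := hg2 γ'.toZFSet (Ordinal.toZFSet_mem_toZFSet_iff.2 hγ')
      have h7 := hb a ha
      rw [app_eq (svl_of_isFunc hg1) hab] at h7
      exact lt_irrefl _ (Ordinal.toZFSet_mem_toZFSet_iff.1 h7)
  rw [hN'] at hxN
  exact Lh_mono hτκ.le hxN

end CAA
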